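import Pool.Agent.Lib.MP_bc213e_ag.Proj

/-!
Nonvanishing on blow-ups of projective space along disjoint centres, for an arbitrary effective
boundary.  With `X` the blow-up of `ℙ^n` along disjoint smooth centres `Z i` of dimension `z i`,
`K_X = -(n+1) H + ∑ (n - z i - 1) E i`, and for `L = K_X + Δ = d H - ∑ m i E i` one has
`Δ = (d + n + 1) H - ∑ (m i + n - z i - 1) E i`.
-/

namespace Pool.Agent.Results.MP_bc213e_ag.BlowupProjectiveSpace

open MvPolynomial Pool.Agent.Lib.MP_bc213e_ag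

theorem result {n : ℕ} (hn : 1 ≤ n) {ι : Type} [Finite ι]
    (P : ι → Ideal (MvPolynomial (Fin n) ℂ)) (z : ι → ℕ) (hP : ∀ i, (P i).IsPrime)
    (hz : ∀ i, ringKrullDim (MvPolynomial (Fin n) ℂ ⧸ P i) = z i) (hzn : ∀ i, z i + 2 ≤ n)
    (hdisj : ∀ i j, i ≠ j → Disjoint (zeroLocus ℂ (P i)) (zeroLocus ℂ (P j)))
    (hyp : ∀ i,
      (∃ L : AffineSubspace ℂ (Fin n → ℂ), 1 ≤ Module.finrank ℂ L.direction ∧
        ((L : Set (Fin n → ℂ)) ∩ zeroLocus ℂ (P i)).Finite ∧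
        (n + 1) ^ Module.finrank ℂ L.direction ≤
          ((L : Set (Fin n → ℂ)) ∩ zeroLocus ℂ (P i)).ncard *
            (n - z i - 1) ^ Module.finrank ℂ L.direction) ∨
      (((∃ h ∈ P i, h ≠ 0 ∧ h.totalDegree ≤ 1) ∨ 2 * z i + 3 ≤ n) ∧
        ∀ j, j ≠ i → z i + z j + 3 ≤ n))
    (d : ℚ) (m : ι → ℚ) (hnef : CurveNef ⊥ P d m)
    (hΔ : QEff ⊥ P (d + (n + 1)) (fun i => m i + ((n : ℚ) - z i - 1))) :
    QEff ⊥ P d m := by
  have hc : ∀ i, ((n - z i - 1 : ℕ) : ℚ) = (n : ℚ) - z i - 1 := fun i => by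
    have := hzn i
    rw [Nat.cast_sub (by omega), Nat.cast_sub (by omega)]; simp
  have hq : ∀ i, (z i : ℚ) + 2 ≤ n := fun i => by exact_mod_cast hzn i
  refine (proj_main hn P (fun i => (n : ℚ) - z i - 1) hP
    (fun i => ne_bot_of_dim (hz i) (by have := hzn i; omega)) (fun i => by linarith [hq i]) hdisj
    (fun i => ?_) d m hnef hΔ.rEff).qEff Ideal.isPrime_bot hP
  rcases hyp i with ⟨L, h1, h2, h3⟩ | ⟨h1, h2⟩
  · refine Or.inl ⟨L, h1, h2, ?_⟩
    rw [← hc i]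
    exact_mod_cast h3
  · refine Or.inr ⟨h1.imp id fun h => ?_, ?_, fun j hj => ?_⟩
    · have : (2 * z i + 3 : ℚ) ≤ n := by exact_mod_cast h
      linarith
    · have : (0 : ℚ) ≤ z i := by positivity
      linarith
    · have : (z i + z j + 3 : ℚ) ≤ n := by exact_mod_cast h2 j hj
      linarith

end Pool.Agent.Results.MP_bc213e_ag.BlowupProjectiveSpace
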