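import Pool.Agent.Lib.MP_bc213e_ag.Hyp.Main

/-!
Nonvanishing and abundance for pairs with a cohomologically hyperbolic rational self-map:
a nef log canonical divisor is torsion.
-/

namespace Pool.Agent.Lib.MP_bc213e_ag.Retired.HyperbolicSelfMap

open Pool.Agent.Lib.MP_bc213e_ag.Hyp

theorem result {K ι : Type} [Field K] [Algebra ℂ K] [Fintype ι] {n m p : ℕ} (npos : 0 < n)
    (x g : ι → Kˣ) (i₀ : ι) (one : x i₀ = 1)
    (normal : ∀ i, IsFractionRing (chart x i) K ∧ IsIntegrallyClosed (chart x i))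
    (τ : Fin n → K) (hτ : IsTranscendenceBasis ℂ τ) (D : Fin n → Derivation ℂ K K)
    (hD : ∀ a b, D a (τ b) = if a = b then 1 else 0)
    (cartier : ∀ i j, ∃ e : ℕ, (g i : K) / g j * ((x i : K) / x j) ^ e ∈ chart x j)
    (boundary : ∀ i w, PrimeDiv (chart x i) w → LD D m w (g i) 0 ∧ ¬ LD D m w (g i) (m + 1))
    (nef : ∀ t : ℕ, ∃ N : ℕ, 0 < N ∧ Free x g (N * t) N)
    (φ : K →ₐ[ℂ] K)
    (hφ : ∀ i j w, PrimeDiv (chart x i) w → (∀ r ∈ chart x j, w (φ r) ≤ 1) →
      ∀ c, LD D m w (g i) c → LD D m (w.comap φ.toRingHom) (g j) c)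
    (lam : ℕ → ℝ) (dyn : IsDynDegrees n (Submodule.span ℂ (Set.range fun i => (x i : K))) φ lam)
    (hp : p ≤ n) (hyperbolic : ∀ j ≤ n, j ≠ p → lam j < lam p) :
    ∃ (N : ℕ) (s : K), 0 < N ∧ s ≠ 0 ∧
      ∀ i, s / (g i : K) ^ N ∈ chart x i ∧ (g i : K) ^ N / s ∈ chart x i :=
  Su.main
    { x := x, g := g, φ := φ, h := jac D (fun b => φ (τ b)) ^ m, i₀ := i₀, npos := npos,
      one := one, hne := pow_ne_zero m (jac_ne_zero τ hτ D hD φ), frac := fun i => (normal i).1,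
      norm := fun i => (normal i).2,
      dim := by simpa using Pool.Agent.Lib.MP_bc213e_ag.TCI.trdeg_eq_card τ hτ,
      cart := cartier, nef := nef,
      pull := fun i j w hw hj =>
        pull_of_LD τ hτ D hD φ m w (boundary i w hw).1 (boundary i w hw).2 (hφ i j w hw hj),
      hyp := hyp_of_degrees npos hp _ φ lam dyn hyperbolic }

end Pool.Agent.Lib.MP_bc213e_ag.Retired.HyperbolicSelfMap
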