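import Pool.Agent.Lib.MP_bc213e_ag.CA.Main
import Pool.Agent.Lib.MP_bc213e_ag.CA.Defs

/-!
Let `L` be nef on `X` of dimension `ν + r`, and let `P (t, a) = χ (t L + a H)` have degree at most
`ν` in `t`. The coefficient of `t ^ ν` is a polynomial in `a`, whose term of degree `r` comes from
the volume `(t L + a H) ^ (ν + r)`. If the highest of its other terms is positive, then through
every point of a dense open set there is a curve on which the sections of `t L + a H` restrict to
a space of dimension bounded in `t`.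
-/

namespace Pool.Agent.Lib.MP_bc213e_ag.Retired.NefDimension

open Pool.Agent.Lib.MP_bc213e_ag Pool.Agent.Lib.MP_bc213e_ag.Hyp Filter

theorem result {K ι : Type} [Field K] [Algebra ℂ K] [Fintype ι] {ν r : ℕ}
    (x g : ι → Kˣ) (i₀ : ι) (one : x i₀ = 1) (frac : IsFractionRing (chart x i₀) K)
    (dim : Algebra.trdeg ℂ K = (ν + r : ℕ))
    (cartier : ∀ i j, ∃ e : ℕ, (g i : K) / g j * ((x i : K) / x j) ^ e ∈ chart x j)
    (nef : ∀ t : ℕ, ∃ N : ℕ, 0 < N ∧ Free x g (N * t) N)
    (h : ℕ → ℕ → ℕ)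
    (hh : ∀ t a, h t a = Module.finrank ℂ (Submodule.span ℂ {s | Sec x g t a s}))
    (P : Polynomial (Polynomial ℚ))
    (hilbert : ∀ t : ℕ, ∀ᶠ a : ℕ in atTop,
      (h t a : ℚ) = (P.eval (Polynomial.C (t : ℚ))).eval (a : ℚ))
    (deg : P.natDegree ≤ ν) (excess : 0 < ((P.coeff ν).erase r).leadingCoeff) :
    CA.Covered fun t a : ℕ => {u : chart x i₀ | Sec x g t a (u * (g i₀ : K) ^ t)} := by
  have e : ∀ t a : ℕ, h t a = Module.finrank ℂ (KBB.SecS x g t a) := fun t a => by
    rw [hh]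
    exact congrArg (fun U : Submodule ℂ K => Module.finrank ℂ U)
      (Submodule.span_eq (KBB.SecS x g t a))
  simp only [e] at hilbert
  obtain ⟨f, hf, h1⟩ := CA.main cartier nef one frac dim P deg excess hilbert
  refine ⟨f, hf, fun m hm hfm => ?_⟩
  obtain ⟨p, h2, h3, h4, h5⟩ := h1 m hm hfm
  refine ⟨p, ⟨h2, h3, h4⟩, fun a => (h5 a).imp fun C hC t => le_of_eq_of_le ?_ (hC t)⟩
  exact congrArg (fun U : Submodule ℂ (chart x i₀ ⧸ p) => Module.rank ℂ U)
    (Submodule.span_eq ((CA.V x g i₀ t a).map (Ideal.Quotient.mkₐ ℂ p).toLinearMap))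

end Pool.Agent.Lib.MP_bc213e_ag.Retired.NefDimension
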