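import Pool.Agent.Lib.MP_bc213e_ag.Dyn.Link

/-!
The numerical dimension of a nef adjoint divisor is at most the number of neutral multipliers of
a dominant rational self-map that does not decrease log discrepancies.
-/

namespace Pool.Agent.Lib.MP_bc213e_ag.Retired.NumDimDynamics

open Pool.Agent.Lib.MP_bc213e_ag.Dyn

theorem result {K : Type} [Field K] [Algebra ℂ K] {n : ℕ} (dim : Algebra.trdeg ℂ K = n)
    (M N : Submodule ℂ K) (hM : M.FG) (hN : N.FG) (bir : Birational (M * N)) (nef : Nef M N)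
    (δ : Fin n → Derivation ℂ K K) (hδ : LinearIndependent K δ) (q : ℕ) (f : K →ₐ[ℂ] K)
    (dyn : ∀ w, OnModel n (M * N) w → logDisc δ q M N w ≤ logDisc δ q M N (w.comap f))
    (j : ℕ) (hj : j ≤ n)
    (hs : {a | a < n ∧ ldeg n f (M * N) (a + 1) = ldeg n f (M * N) a}.ncard < j) :
    inter n j M N (M * N) = 0 :=
  main dim M N hM hN bir nef δ hδ q f dyn j hj hs

end Pool.Agent.Lib.MP_bc213e_ag.Retired.NumDimDynamics
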