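import Pool.Agent.Lib.MP_bc213e_ag.Psef.Main

/-!
Nonvanishing for log canonical pairs with pseudo-effective log canonical divisor and a
cohomologically hyperbolic rational self-map: Kodaira dimension and numerical dimension are zero.
-/

namespace Pool.Agent.Results.MP_bc213e_ag.PsefHyperbolic

open Pool.Agent.Lib.MP_bc213e_ag.Hyp Pool.Agent.Lib.MP_bc213e_ag.Psef

theorem result {K ι : Type} [Field K] [Algebra ℂ K] [Fintype ι] {n m p : ℕ} (npos : 0 < n)
    (x g : ι → Kˣ) (i₀ : ι) (one : x i₀ = 1)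
    (normal : ∀ i, IsFractionRing (chart x i) K ∧ IsIntegrallyClosed (chart x i))
    (qfact : ∀ i, QFactorial (chart x i))
    (τ : Fin n → K) (hτ : IsTranscendenceBasis ℂ τ) (D : Fin n → Derivation ℂ K K)
    (hD : ∀ a b, D a (τ b) = if a = b then 1 else 0)
    (cartier : ∀ i j, ∃ e : ℕ, (g i : K) / g j * ((x i : K) / x j) ^ e ∈ chart x j)
    (effective : ∀ i w, PrimeDiv (chart x i) w → ¬ LD D m w (g i) (m + 1))
    (lc : ∀ i (v : Valuation K (WithZero (Multiplicative ℤ))), (∀ r ∈ chart x i, v r ≤ 1) →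
      LD D m v (g i) 0)
    (psef : ∀ t : ℕ, ∃ (N : ℕ) (s : K), 0 < N ∧ s ≠ 0 ∧ Sec x g (N * t) N s)
    (φ : K →ₐ[ℂ] K)
    (hφ : ∀ i j w, PrimeDiv (chart x i) w → (∀ r ∈ chart x j, w (φ r) ≤ 1) →
      ∀ c, LD D m w (g i) c → LD D m (w.comap φ.toRingHom) (g j) c)
    (lam : ℕ → ℝ) (dyn : IsDynDegrees n (Submodule.span ℂ (Set.range fun i => (x i : K))) φ lam)
    (hp : p ≤ n) (hyperbolic : ∀ j ≤ n, j ≠ p → lam j < lam p) :
    ∃ (N C : ℕ) (s : K), 0 < N ∧ s ≠ 0 ∧ Sec x g N 0 s ∧ ∀ (t a : ℕ) (σ : K),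
      Sec x g (N * t) a σ → Sec x g (N * (C * a)) a (σ * s ^ (C * a) / s ^ t) :=
  main npos x g i₀ one (fun i => (normal i).1) (fun i => (normal i).2) qfact τ hτ D hD cartier lc
    psef φ
    (fun i j w hw hj =>
      pull_of_LD τ hτ D hD φ m w (lc i w hw.2.1) (effective i w hw) (hφ i j w hw hj))
    (hyp_of_degrees npos hp _ φ lam dyn hyperbolic)

end Pool.Agent.Results.MP_bc213e_ag.PsefHyperbolic
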