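import Pool.Agent.Lib.MP_bc213e_ag.TCI.Main

/-!
Nonvanishing and abundance for pairs on complete intersections in complete toric varieties.
-/

namespace Pool.Agent.Lib.MP_bc213e_ag.Retired.ToricAbundance

open Pool.Agent.Lib.MP_bc213e_ag.TCI

theorem result {n k : ℕ} {R ι K : Type} [Fintype R] [Fintype ι] [Field K] [Algebra ℂ K]
    (ray : R → Fin n ⊕ Fin k → ℤ) (cone : ι → Set R)
    (complete : ∀ v : Fin n ⊕ Fin k → ℤ, ∃ σ, ∃ N : ℕ, 0 < N ∧ ∃ ν : R → ℕ,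
      (∀ ρ, ρ ∉ cone σ → ν ρ = 0) ∧ N • v = ∑ ρ, ν ρ • ray ρ)
    (a : Fin k → R → ℤ) (cartier : ∀ i σ, ∃ N : ℕ, 0 < N ∧ ∃ m, LocEq ray (cone σ) (a i) N m)
    (f : Fin k → (Fin n ⊕ Fin k → ℤ) →₀ ℂ)
    (hf : ∀ i, ∀ u ∈ (f i).support, ∀ ρ, 0 ≤ u ⬝ᵥ ray ρ + a i ρ)
    (b : R → ℤ) (g : (Fin n ⊕ Fin k → ℤ) →₀ ℂ) (hg : ∀ u ∈ g.support, ∀ ρ, 0 ≤ u ⬝ᵥ ray ρ + b ρ)
    (x : Fin n ⊕ Fin k → Kˣ)
    (gen : IntermediateField.adjoin ℂ (Set.range fun l => (x l : K)) = ⊤)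
    (dim : Algebra.trdeg ℂ K = n) (van : ∀ i, lval x (f i) = 0) (gne : lval x g ≠ 0)
    (q : ℕ) (κ : R → ℤ) (hκ : κ = fun ρ => q * (∑ i, a i ρ - 1) + b ρ)
    (can : Can ray cone x f (lval x g) q κ)
    (psef : ∃ c : R → ℤ, ∀ t : ℕ, ∃ M : ℕ, 0 < M ∧ ∃ φ : K, φ ≠ 0 ∧
      Sec ray cone x (fun ρ => t * κ ρ + c ρ) M φ) :
    ∃ N : ℕ, 0 < N ∧ ∃ H : Finset K, H.Nonempty ∧ (∀ h ∈ H, h ≠ 0 ∧ Sec ray cone x κ N h) ∧
      ∀ (c : R → ℤ) (w : Valuation K (WithZero (Multiplicative ℤ))),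
        (∀ z : ℂ, w (algebraMap ℂ K z) ≤ 1) → ∃ h ∈ H, ∃ C : ℕ, ∀ (t M : ℕ) (φ : K), 0 < M →
          Sec ray cone x (fun ρ => t * κ ρ + c ρ) M φ →
            w φ ^ N ≤ w h ^ (t * M) * WithZero.exp ((C * M : ℕ) : ℤ) := by
  classical
  subst hκ
  have indep : LinearIndependent K fun i => logGrad x (f i) := by
    obtain ⟨σ, -⟩ := complete 0
    obtain ⟨w, hw, hw'⟩ := exists_triv x gen dim
    obtain ⟨r, u, -, -, h, -⟩ := can σ w (fun α _ => hw α) hw'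
    obtain ⟨τ, hτ⟩ := exists_trBasis dim
    obtain ⟨d, hd⟩ := exists_dual τ hτ
    have gen' : IntermediateField.adjoin ℂ
        (mono x '' ((⊤ : Submodule ℤ (Fin n ⊕ Fin k → ℤ)) : Set (Fin n ⊕ Fin k → ℤ))) = ⊤ := by
      refine top_le_iff.1 (gen ▸ IntermediateField.adjoin.mono _ _ _ ?_)
      rintro _ ⟨l, rfl⟩
      exact ⟨Pi.single l 1, trivial, mono_single x l⟩
    obtain ⟨μ, -, hμ⟩ := exists_lambda (E := K) x ⊤ gen' d fun β hβ => funext fun a => by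
      simpa [hd] using hβ (τ a)
    rw [det_of_isResidue h d μ] at hμ
    exact linearIndependent_of_det_fromRows (Matrix.of fun a l => (μ a l : K))
      (Matrix.of fun i => logGrad x (f i)) fun h0 => hμ (by rw [h0]; simp)
  have hne : ∀ i, (f i).support.Nonempty := fun i => by
    rw [Finsupp.support_nonempty_iff]
    intro h0
    refine indep.ne_zero i ?_
    funext l
    simp [logGrad, h0]
  choose base hbase using hne
  obtain ⟨c, hc⟩ := psef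
  exact Data.main ⟨ray, cone, a, f, x, base, b, g, q, complete, cartier, hf, gen, dim, van, hg, gne,
    can, indep, hbase⟩ c hc

end Pool.Agent.Lib.MP_bc213e_ag.Retired.ToricAbundance
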