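import Pool.Agent.Lib.MP_bc213e_ag.OW.F.Fibres

/-!
Let `X ⊆ ℙ ^ N` be a normal projective variety and `Δ ≥ 0` a rational divisor such that
`L = m (K + Δ)` is Cartier and has nonnegative degree on every curve, and let `(X, Δ)` be log smooth
and klt at all points of dimension more than `ν + j`. Let `H` be the hyperplane section `x 0 = 0`
and let `P (t, a) = χ (t L + a H)` have degree at most `ν` in `t`. If the coefficient of `t ^ ν` is
not divisible by `a ^ (j + 1)`, then a positive multiple `M L` is trivial on the generic fibre of a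
rational map to a variety of dimension at most `ν + j`, with function field `k`: the rational
section `θ` generates `M L` at the centre of every valuation ring of `K` over `k`.
-/

namespace Pool.Agent.Results.MP_bc213e_ag.TorsionOnFibres

open Pool.Agent.Lib.MP_bc213e_ag.Hyp Pool.Agent.Lib.MP_bc213e_ag.OW

theorem result {K : Type} [Field K] [Algebra ℂ K] {N n m ν j : ℕ} (hm : 0 < m)
    (x : Fin (N + 1) → Kˣ)
    (normal : ∀ i, IsFractionRing (chart x i) K ∧ IsIntegrallyClosed (chart x i))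
    (τ : Fin n → K) (hτ : IsTranscendenceBasis ℂ τ) (D : Fin n → Derivation ℂ K K)
    (hD : ∀ a b, D a (τ b) = if a = b then 1 else 0)
    (KX : Prm x →₀ ℤ) (canonical : IsCanonical D KX) (Δ : Prm x →₀ ℚ) (effective : 0 ≤ Δ)
    (L : Prm x →₀ ℤ) (hL : ∀ w, (L w : ℚ) = m * (KX w + Δ w))
    (cartier : IsCartier L) (nef : IsNef L)
    (klt : ∀ (O : Subalgebra ℂ K) (F : Type) [Field F] [Algebra ℂ F] (ρ : O →ₐ[ℂ] F),
      IsPoint x O → Function.Surjective ρ → ((ν + j : ℕ) : Cardinal) < Algebra.trdeg ℂ F →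
        LogSmoothKlt n m Δ O)
    (H : Prm x →₀ ℤ)
    (hyperplane : ∀ i (w : Prm x), PrimeDiv (chart x i) w.1 → H w = ord w.1 ((x 0 : K) / x i))
    (P : Polynomial (Polynomial ℚ))
    (euler : ∀ t a : ℕ, (chi (Sect (t • L + a • H)) : ℚ) =
      (P.eval (Polynomial.C (t : ℚ))).eval (a : ℚ))
    (deg : P.natDegree ≤ ν) (order : ¬ Polynomial.X ^ (j + 1) ∣ P.coeff ν) :
    ∃ (k : IntermediateField ℂ K) (M : ℕ) (θ : Kˣ), Algebra.trdeg ℂ k ≤ (ν + j : ℕ) ∧ 0 < M ∧
      ∀ (V : ValuationSubring K) (O : Subalgebra ℂ K) (f : Kˣ), (∀ c ∈ k, c ∈ V) →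
        IsPoint x O → (∀ r ∈ O, r ∈ V) → LocEq L O f →
          V.valuation ((θ : K) * (f : K) ^ M) = 1 :=
  fibres hm x normal τ hτ D hD KX canonical Δ effective L hL cartier nef klt H hyperplane P euler
    deg order

end Pool.Agent.Results.MP_bc213e_ag.TorsionOnFibres
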